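import Pool.Agent.Helper68.Fam.Goals

/-!
# Project FAM: DY

The nabla-Y move keeps non-planarity.
-/

namespace NApexGraphs.Fam.Helper15

open SimpleGraph NApexGraphs NApexGraphs.Dom NApexGraphs.Fam

variable {V : Type} {G1 G2 : SimpleGraph V} {Z N : Set V} {y : V} {κ : Type}
  {K : SimpleGraph κ} {B : κ → Set V}

theorem y_notin (h1 : ∀ z ∈ Z, ¬ G1.Adj y z) (hB : IsModel K G1 B) (hs : ∀ k, B k ⊆ Z)
    (hK : ∀ k, ∃ l, K.Adj k l) (k : κ) : y ∉ B k := by
  rw [isModel_iff] at hB
  intro hy
  have h2 : B k ⊆ {y} := by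
    apply (hB.1 k).subset_of_closed (A := {y}) ⟨y, hy, rfl⟩
    intro x _ hx z hz hxz
    rw [Set.mem_singleton_iff] at hx
    subst hx
    exact absurd hxz (h1 z (hs k hz))
  obtain ⟨l, hl⟩ := hK k
  obtain ⟨x, hx, z, hz, hxz⟩ := hB.2.2 k l hl
  have h3 := h2 hx
  rw [Set.mem_singleton_iff] at h3
  subst h3
  exact h1 z (hs l hz) hxz

theorem plain (h12 : ∀ x ∈ Z, ∀ z ∈ Z, G1.Adj x z → G2.Adj x z ∨ (x ∈ N ∧ z ∈ N))
    (hB : IsModel K G1 B) (hs : ∀ k, B k ⊆ Z)
    (hn : ∀ i j x x', x ∈ N → x' ∈ N → x ≠ x' → x ∈ B i → x' ∈ B j → (i = j ∨ K.Adj i j) →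
      False) : IsModel K G2 B := by
  rw [isModel_iff] at hB ⊢
  refine ⟨fun k => (hB.1 k).mono fun x hx z hz hxz => ?_, hB.2.1, ?_⟩
  · rcases h12 x (hs k hx) z (hs k hz) hxz with h | ⟨h, h'⟩
    · exact h
    · exact (hn k k x z h h' hxz.ne hx hz (Or.inl rfl)).elim
  · intro k l hkl
    obtain ⟨x, hx, z, hz, hxz⟩ := hB.2.2 k l hkl
    refine ⟨x, hx, z, hz, ?_⟩
    rcases h12 x (hs k hx) z (hs l hz) hxz with h | ⟨h, h'⟩
    · exact h
    · exact (hn k l x z h h' hxz.ne hx hz (Or.inr hkl)).elim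

theorem centre (hyZ : y ∈ Z) (hy : ∀ z ∈ N, G2.Adj y z)
    (h12 : ∀ x ∈ Z, ∀ z ∈ Z, G1.Adj x z → G2.Adj x z ∨ (x ∈ N ∧ z ∈ N))
    (hB : IsModel K G1 B) (hs : ∀ k, B k ⊆ Z) (hyB : ∀ k, y ∉ B k) (k0 : κ) (x0 : V)
    (hx0 : x0 ∈ B k0) (hx0N : x0 ∈ N)
    (hc : ∀ i j x x', x ∈ N → x' ∈ N → x ≠ x' → x ∈ B i → x' ∈ B j → (i = j ∨ K.Adj i j) →
      i = k0 ∨ j = k0) : ∃ B' : κ → Set V, IsModel K G2 B' ∧ ∀ k, B' k ⊆ Z := by
  classical
  rw [isModel_iff] at hB
  obtain ⟨hcon, hdis, hadj⟩ := hB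
  have e0 : Function.update B k0 (B k0 ∪ {y}) k0 = B k0 ∪ {y} := Function.update_self _ _ _
  have e1 : ∀ k, k ≠ k0 → Function.update B k0 (B k0 ∪ {y}) k = B k := fun k hk =>
    Function.update_of_ne hk _ _
  have hsub : ∀ k, B k ⊆ Function.update B k0 (B k0 ∪ {y}) k := by
    intro k
    by_cases hk : k = k0
    · subst hk; rw [e0]; exact Set.subset_union_left
    · rw [e1 k hk]
  refine ⟨Function.update B k0 (B k0 ∪ {y}), ?_, ?_⟩
  · rw [isModel_iff]
    refine ⟨?_, ?_, ?_⟩
    · intro k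
      by_cases hk : k = k0
      · subst hk
        rw [e0]
        refine ⟨⟨y, Or.inr rfl⟩, ?_⟩
        intro A hA hne hcl
        by_cases hyA : y ∈ A
        · have hNA : ∀ z ∈ N, z ∈ B k → z ∈ A := fun z hz hzB =>
            hcl y hyA z (Or.inl hzB) (hy z hz)
          have h3 : B k ⊆ A := by
            apply (hcon k).subset_of_closed ⟨x0, hx0, hNA x0 hx0N hx0⟩
            intro x hx hxA z hz hxz
            rcases h12 x (hs k hx) z (hs k hz) hxz with h | ⟨_, h'⟩
            · exact hcl x hxA z (Or.inl hz) h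
            · exact hNA z h' hz
          rintro z (hz | hz)
          · exact h3 hz
          · rw [Set.mem_singleton_iff] at hz
            rw [hz]; exact hyA
        · have hNA : ∀ z ∈ N, z ∉ A := by
            intro z hz hzA
            exact hyA (hcl z hzA y (Or.inr rfl) (hy z hz).symm)
          exfalso
          obtain ⟨w, hw⟩ := hne
          have hwB : w ∈ B k := by
            rcases hA hw with h | h
            · exact h
            · rw [Set.mem_singleton_iff] at h
              rw [h] at hw; exact absurd hw hyA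
          have h3 : B k ⊆ A := by
            apply (hcon k).subset_of_closed ⟨w, hwB, hw⟩
            intro x hx hxA z hz hxz
            rcases h12 x (hs k hx) z (hs k hz) hxz with h | ⟨h', _⟩
            · exact hcl x hxA z (Or.inl hz) h
            · exact absurd hxA (hNA x h')
          exact hNA x0 hx0N (h3 hx0)
      · rw [e1 k hk]
        refine (hcon k).mono fun x hx z hz hxz => ?_
        rcases h12 x (hs k hx) z (hs k hz) hxz with h | ⟨h, h'⟩
        · exact h
        · rcases hc k k x z h h' hxz.ne hx hz (Or.inl rfl) with h3 | h3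
          · exact absurd h3 hk
          · exact absurd h3 hk
    · intro k l hkl
      by_cases hk : k = k0
      · subst hk
        rw [e0, e1 l (Ne.symm hkl), Set.disjoint_left]
        rintro z (hz | hz) hz'
        · exact Set.disjoint_left.1 (hdis k l hkl) hz hz'
        · rw [Set.mem_singleton_iff] at hz
          rw [hz] at hz'; exact hyB l hz'
      · rw [e1 k hk]
        by_cases hl : l = k0
        · subst hl
          rw [e0, Set.disjoint_left]
          rintro z hz' (hz | hz)
          · exact Set.disjoint_left.1 (hdis k l hkl) hz' hz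
          · rw [Set.mem_singleton_iff] at hz
            rw [hz] at hz'; exact hyB k hz'
        · rw [e1 l hl]; exact hdis k l hkl
    · intro k l hkl
      obtain ⟨x, hx, z, hz, hxz⟩ := hadj k l hkl
      rcases h12 x (hs k hx) z (hs l hz) hxz with h | ⟨h, h'⟩
      · exact ⟨x, hsub k hx, z, hsub l hz, h⟩
      · rcases hc k l x z h h' hxz.ne hx hz (Or.inr hkl) with h3 | h3
        · subst h3
          refine ⟨y, ?_, z, hsub l hz, hy z h'⟩
          rw [e0]; exact Or.inr rfl
        · subst h3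
          refine ⟨x, hsub k hx, y, ?_, (hy x h).symm⟩
          rw [e0]; exact Or.inr rfl
  · intro k
    by_cases hk : k = k0
    · subst hk
      rw [e0]
      exact Set.union_subset (hs k) (Set.singleton_subset_iff.2 hyZ)
    · rw [e1 k hk]; exact hs k

/-- four members of a set of at most three, two pairs of different ones -/
theorem four {N : Set V} {a b c : V} (hN : N ⊆ {a, b, c}) {x x' u u' : V} (hx : x ∈ N)
    (hx' : x' ∈ N) (hu : u ∈ N) (hu' : u' ∈ N) (h1 : x ≠ x') (h2 : u ≠ u') :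
    u = x ∨ u = x' ∨ u' = x ∨ u' = x' := by
  have m1 := hN hx
  have m2 := hN hx'
  have m3 := hN hu
  have m4 := hN hu'
  simp only [Set.mem_insert_iff, Set.mem_singleton_iff] at m1 m2 m3 m4
  rcases m1 with rfl | rfl | rfl <;> rcases m2 with rfl | rfl | rfl <;>
    rcases m3 with rfl | rfl | rfl <;> rcases m4 with rfl | rfl | rfl <;>
    first | exact absurd rfl h1 | exact absurd rfl h2 | exact Or.inl rfl |
      exact Or.inr (Or.inl rfl) | exact Or.inr (Or.inr (Or.inl rfl)) |
      exact Or.inr (Or.inr (Or.inr rfl))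

/-- a member of a set of at most three, three different ones are given -/
theorem three {N : Set V} {a b c : V} (hN : N ⊆ {a, b, c}) {x x' x'' u : V} (hx : x ∈ N)
    (hx' : x' ∈ N) (hx'' : x'' ∈ N) (hu : u ∈ N) (h1 : x ≠ x') (h2 : x ≠ x'') (h3 : x' ≠ x'') :
    u = x ∨ u = x' ∨ u = x'' := by
  have m1 := hN hx
  have m2 := hN hx'
  have m3 := hN hx''
  have m4 := hN hu
  simp only [Set.mem_insert_iff, Set.mem_singleton_iff] at m1 m2 m3 m4
  rcases m1 with rfl | rfl | rfl <;> rcases m2 with rfl | rfl | rfl <;>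
    rcases m3 with rfl | rfl | rfl <;> rcases m4 with rfl | rfl | rfl <;>
    first | exact absurd rfl h1 | exact absurd rfl h2 | exact absurd rfl h3 | exact Or.inl rfl |
      exact Or.inr (Or.inl rfl) | exact Or.inr (Or.inr rfl)

/-- either a model in the new graph or three elements of `N` in pairwise adjacent branch sets -/
theorem dicho {a b c : V} (hyZ : y ∈ Z) (hN : N ⊆ {a, b, c})
    (hy : ∀ z ∈ N, G2.Adj y z) (h1 : ∀ z ∈ Z, ¬ G1.Adj y z)
    (h12 : ∀ x ∈ Z, ∀ z ∈ Z, G1.Adj x z → G2.Adj x z ∨ (x ∈ N ∧ z ∈ N))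
    (hB : IsModel K G1 B) (hs : ∀ k, B k ⊆ Z) (hK : ∀ k, ∃ l, K.Adj k l) :
    (∃ B' : κ → Set V, IsModel K G2 B' ∧ ∀ k, B' k ⊆ Z) ∨
    ((∀ k x x', x ∈ N → x' ∈ N → x ∈ B k → x' ∈ B k → x = x') ∧
      ∃ i j k x1 x2 x3, x1 ∈ N ∧ x2 ∈ N ∧ x3 ∈ N ∧ x1 ∈ B i ∧ x2 ∈ B j ∧ x3 ∈ B k ∧
        K.Adj i j ∧ K.Adj i k ∧ K.Adj j k) := by
  have hyB := y_notin h1 hB hs hK
  have hdis := ((isModel_iff _ _ _).1 hB).2.1
  have huniq : ∀ i j x, x ∈ B i → x ∈ B j → i = j := by
    intro i j x hi hj
    by_contra hne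
    exact Set.disjoint_left.1 (hdis i j hne) hi hj
  by_cases hA : ∃ k x x', x ∈ N ∧ x' ∈ N ∧ x ∈ B k ∧ x' ∈ B k ∧ x ≠ x'
  · obtain ⟨k, x, x', hx, hx', hxk, hxk', hne⟩ := hA
    left
    apply centre hyZ hy h12 hB hs hyB k x hxk hx
    intro i j u u' hu hu' hne' hui huj _
    rcases four hN hx hx' hu hu' hne hne' with h | h | h | h
    · left; rw [h] at hui; exact huniq _ _ _ hui hxk
    · left; rw [h] at hui; exact huniq _ _ _ hui hxk'
    · right; rw [h] at huj; exact huniq _ _ _ huj hxk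
    · right; rw [h] at huj; exact huniq _ _ _ huj hxk'
  · have hA' : ∀ k x x', x ∈ N → x' ∈ N → x ∈ B k → x' ∈ B k → x = x' := by
      intro k x x' h2 h3 h4 h5
      by_contra h6
      exact hA ⟨k, x, x', h2, h3, h4, h5, h6⟩
    by_cases hD : ∃ k x, x ∈ N ∧ x ∈ B k
    · obtain ⟨k0, x0, hx0, hxk0⟩ := hD
      -- the condition at an index
      have step : ∀ k0 x0, x0 ∈ N → x0 ∈ B k0 →
          (∃ B' : κ → Set V, IsModel K G2 B' ∧ ∀ k, B' k ⊆ Z) ∨
          ∃ i j x x', x ∈ N ∧ x' ∈ N ∧ x ≠ x' ∧ x ∈ B i ∧ x' ∈ B j ∧ K.Adj i j ∧ i ≠ k0 ∧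
            j ≠ k0 := by
        intro k0 x0 hx0 hxk0
        by_cases hc : ∀ i j x x', x ∈ N → x' ∈ N → x ≠ x' → x ∈ B i → x' ∈ B j →
            (i = j ∨ K.Adj i j) → i = k0 ∨ j = k0
        · left
          exact centre hyZ hy h12 hB hs hyB k0 x0 hxk0 hx0 hc
        · right
          push Not at hc
          obtain ⟨i, j, x, x', hx, hx', hne, hi, hj, hor, hik, hjk⟩ := hc
          refine ⟨i, j, x, x', hx, hx', hne, hi, hj, ?_, hik, hjk⟩
          rcases hor with h | h
          · subst h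
            exact absurd (hA' i x x' hx hx' hi hj) hne
          · exact h
      rcases step k0 x0 hx0 hxk0 with h | ⟨i, j, x, x', hx, hx', hne, hi, hj, hij, hik, hjk⟩
      · exact Or.inl h
      have n0 : x0 ≠ x := by
        rintro rfl
        exact hik (huniq _ _ _ hi hxk0)
      have n0' : x0 ≠ x' := by
        rintro rfl
        exact hjk (huniq _ _ _ hj hxk0)
      have idx : ∀ l u, u ∈ N → u ∈ B l → (l = k0 ∨ l = i ∨ l = j) := by
        intro l u hu hul
        rcases three hN hx0 hx hx' hu n0 n0' hne with h | h | h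
        · left; rw [h] at hul; exact huniq _ _ _ hul hxk0
        · right; left; rw [h] at hul; exact huniq _ _ _ hul hi
        · right; right; rw [h] at hul; exact huniq _ _ _ hul hj
      have hkj : (∃ B' : κ → Set V, IsModel K G2 B' ∧ ∀ k, B' k ⊆ Z) ∨ K.Adj k0 j := by
        rcases step i x hx hi with h | ⟨p, q, u, u', hu, hu', hne', hp, hq, hpq, hpi, hqi⟩
        · exact Or.inl h
        right
        rcases idx p u hu hp with h | h | h
        · rcases idx q u' hu' hq with h' | h' | h'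
          · rw [h, h'] at hpq; exact absurd rfl hpq.ne
          · exact absurd h' hqi
          · rw [h, h'] at hpq; exact hpq
        · exact absurd h hpi
        · rcases idx q u' hu' hq with h' | h' | h'
          · rw [h, h'] at hpq; exact hpq.symm
          · exact absurd h' hqi
          · rw [h, h'] at hpq; exact absurd rfl hpq.ne
      have hki : (∃ B' : κ → Set V, IsModel K G2 B' ∧ ∀ k, B' k ⊆ Z) ∨ K.Adj k0 i := by
        rcases step j x' hx' hj with h | ⟨p, q, u, u', hu, hu', hne', hp, hq, hpq, hpi, hqi⟩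
        · exact Or.inl h
        right
        rcases idx p u hu hp with h | h | h
        · rcases idx q u' hu' hq with h' | h' | h'
          · rw [h, h'] at hpq; exact absurd rfl hpq.ne
          · rw [h, h'] at hpq; exact hpq
          · exact absurd h' hqi
        · rcases idx q u' hu' hq with h' | h' | h'
          · rw [h, h'] at hpq; exact hpq.symm
          · rw [h, h'] at hpq; exact absurd rfl hpq.ne
          · exact absurd h' hqi
        · exact absurd h hpi
      rcases hkj with h | hkj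
      · exact Or.inl h
      rcases hki with h | hki
      · exact Or.inl h
      exact Or.inr ⟨hA', k0, i, j, x0, x, x', hx0, hx, hx', hxk0, hi, hj, hki, hkj, hij⟩
    · left
      refine ⟨B, plain h12 hB hs ?_, hs⟩
      intro i j x x' hx _ _ hi _ _
      exact hD ⟨i, x, hx, hi⟩

theorem k5_three (i j k : Fin 5) (h1 : i ≠ j) (h2 : i ≠ k) (h3 : j ≠ k) :
    ∃ l m : Fin 5, l ≠ m ∧ l ≠ i ∧ l ≠ j ∧ l ≠ k ∧ m ≠ i ∧ m ≠ j ∧ m ≠ k := by
  revert i j k
  decide

theorem gDY : Goals.DY := by
  intro V G1 G2 Z N y a b c hyZ hyN hNZ hN hy h1 h12 hnp hp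
  apply hnp
  refine ⟨?_, ?_⟩
  · rintro ⟨B, hB, hs⟩
    have hK : ∀ k : Fin 5, ∃ l, K5.Adj k l := by
      intro k
      obtain ⟨l, hl⟩ := exists_ne k
      exact ⟨l, fun h => hl h.symm⟩
    rcases dicho hyZ hN hy h1 h12 hB hs hK with ⟨B', hB', hs'⟩ |
      ⟨hone, i, j, k, x1, x2, x3, hx1, hx2, hx3, h1i, h2j, h3k, hij, hik, hjk⟩
    · exact hp.1 ⟨B', hB', hs'⟩
    · have hyB := y_notin h1 hB hs hK
      rw [isModel_iff] at hB
      obtain ⟨hcon, hdis, hadj⟩ := hB
      have nij : i ≠ j := hij.ne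
      have nik : i ≠ k := hik.ne
      have njk : j ≠ k := hjk.ne
      obtain ⟨l, m, hlm, hli, hlj, hlk, hmi, hmj, hmk⟩ := k5_three i j k nij nik njk
      have hne : ∀ {p q : Fin 5} {u v : V}, p ≠ q → u ∈ B p → v ∈ B q → u ≠ v := by
        rintro p q u v hpq hu hv rfl
        exact Set.disjoint_left.1 (hdis p q hpq) hu hv
      have hmem : ∀ u ∈ N, ∀ p, u ∈ B p → p = i ∨ p = j ∨ p = k := by
        intro u hu p hup
        rcases three hN hx1 hx2 hx3 hu (hne nij h1i h2j) (hne nik h1i h3k)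
          (hne njk h2j h3k) with h | h | h
        · left
          by_contra hpi
          exact hne hpi hup h1i h
        · right; left
          by_contra hpi
          exact hne hpi hup h2j h
        · right; right
          by_contra hpi
          exact hne hpi hup h3k h
      have hcon2 : ∀ p, Conn G2 (B p) := by
        intro p
        refine (hcon p).mono fun x hx z hz hxz => ?_
        rcases h12 x (hs p hx) z (hs p hz) hxz with h | ⟨h, h'⟩
        · exact h
        · exact absurd (hone p x z h h' hx hz) hxz.ne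
      have htouch : ∀ p q, p ≠ q → (∀ u ∈ N, u ∉ B q) → Touch G2 (B p) (B q) := by
        intro p q hpq hq
        obtain ⟨x, hx, z, hz, hxz⟩ := hadj p q hpq
        refine ⟨x, hx, z, hz, ?_⟩
        rcases h12 x (hs p hx) z (hs q hz) hxz with h | ⟨h, h'⟩
        · exact h
        · exact absurd hz (hq z h')
      have hlN : ∀ u ∈ N, u ∉ B l := by
        intro u hu hul
        rcases hmem u hu l hul with h | h | h
        · exact hli h
        · exact hlj h
        · exact hlk h
      have hmN : ∀ u ∈ N, u ∉ B m := by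
        intro u hu hum
        rcases hmem u hu m hum with h | h | h
        · exact hmi h
        · exact hmj h
        · exact hmk h
      have dy : ∀ p, Disjoint (B p) {y} := by
        intro p
        rw [Set.disjoint_singleton_right]
        exact hyB p
      apply hp.2
      apply hasK33_sets (B i) (B j) (B k) (B l) (B m) {y}
      · simp only [List.mem_cons, List.not_mem_nil, or_false, forall_eq_or_imp, forall_eq]
        exact ⟨hcon2 i, hcon2 j, hcon2 k, hcon2 l, hcon2 m, Conn.singleton _ _⟩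
      · simp only [List.pairwise_cons, List.mem_cons, List.not_mem_nil, or_false,
          forall_eq_or_imp, forall_eq, IsEmpty.forall_iff, implies_true, List.Pairwise.nil,
          and_true]
        exact ⟨⟨hdis i j nij, hdis i k nik, hdis i l hli.symm, hdis i m hmi.symm, dy i⟩,
          ⟨hdis j k njk, hdis j l hlj.symm, hdis j m hmj.symm, dy j⟩,
          ⟨hdis k l hlk.symm, hdis k m hmk.symm, dy k⟩, ⟨hdis l m hlm, dy l⟩, dy m⟩
      · simp only [List.mem_cons, List.not_mem_nil, or_false, forall_eq_or_imp, forall_eq]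
        refine ⟨⟨htouch i l hli.symm hlN, htouch i m hmi.symm hmN, x1, h1i, y, rfl,
          (hy x1 hx1).symm⟩, ⟨htouch j l hlj.symm hlN, htouch j m hmj.symm hmN, x2, h2j, y, rfl,
          (hy x2 hx2).symm⟩, htouch k l hlk.symm hlN, htouch k m hmk.symm hmN, x3, h3k, y, rfl,
          (hy x3 hx3).symm⟩
      · simp only [List.mem_cons, List.not_mem_nil, or_false, forall_eq_or_imp, forall_eq]
        exact ⟨hs i, hs j, hs k, hs l, hs m, Set.singleton_subset_iff.2 hyZ⟩
  · rintro ⟨B, hB, hs⟩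
    have hK : ∀ k : Fin 3 ⊕ Fin 3, ∃ l, K33.Adj k l := by
      rintro (k | k)
      · exact ⟨Sum.inr 0, by simp [K33]⟩
      · exact ⟨Sum.inl 0, by simp [K33]⟩
    rcases dicho hyZ hN hy h1 h12 hB hs hK with ⟨B', hB', hs'⟩ |
      ⟨_, i, j, k, x1, x2, x3, hx1, hx2, hx3, h1i, h2j, h3k, hij, hik, hjk⟩
    · exact hp.2 ⟨B', hB', hs'⟩
    · rcases i with i | i <;> rcases j with j | j <;> rcases k with k | k <;>
        simp_all [K33]

end NApexGraphs.Fam.Helper15
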